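import Mathlib
import Pool.Agent.Work.MP_bbeacd_co.Conic
import Pool.Agent.Work.MP_bbeacd_co.Points

set_option autoImplicit false

namespace Pool.Agent.Results.MP_bbeacd_co.Full

open scoped LinearAlgebra.Projectivization
open Pool.Agent.Work.MP_bbeacd_co

/-! `PG(2, K)` is the set `ℙ K (Fin 3 → K)` of points `(x : y : z)`, the line at infinity is `z = 0`
and is identified with `ℙ K (K × K)`; the affine point `(x, y) ∈ K × K` is `(x : y : 1)`. -/

/-- A vector of `K³` representing the point at infinity `P`. -/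
noncomputable def inf {K : Type*} [Field K] (P : ℙ K (K × K)) : Fin 3 → K :=
  ![P.rep.1, P.rep.2, 0]

/-- The conic `Q = 0` is nondegenerate: it has no singular point. -/
def Nondegenerate {K : Type*} [Field K] (Q : QuadraticForm K (Fin 3 → K)) : Prop :=
  ∀ v, v ≠ 0 → Q v = 0 → ∃ w, QuadraticMap.polar Q v w ≠ 0

/-- The conic `Q = 0` is tangent to the line at infinity at the point `T`: it meets the line at
infinity in `T` and in no other point. -/
def TangentAtInfinity {K : Type*} [Field K] (Q : QuadraticForm K (Fin 3 → K))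
    (T : ℙ K (K × K)) : Prop :=
  ∀ P : ℙ K (K × K), Q (inf P) = 0 ↔ P = T

/-- The point at infinity `N` is the nucleus of the conic `Q = 0`: every line `φ = 0` of `PG(2, K)`
which is tangent to the conic (meets it in exactly one point) passes through `N`. -/
def IsNucleus {K : Type*} [Field K] (Q : QuadraticForm K (Fin 3 → K)) (N : ℙ K (K × K)) : Prop :=
  ∀ φ : (Fin 3 → K) →ₗ[K] K, φ ≠ 0 →
    (∃! P : ℙ K (Fin 3 → K), Q P.rep = 0 ∧ φ P.rep = 0) → φ (inf N) = 0

/-- The affine points of the conic `Q = 0`. -/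
def affinePoints {K : Type*} [Field K] (Q : QuadraticForm K (Fin 3 → K)) : Set (K × K) :=
  {p | Q ![p.1, p.2, 1] = 0}

/-- The André set with transversal points `⟨e⟩`, `⟨f⟩` and norm `δ`: the points `⟨e + θ f⟩` at
infinity with `θ^(q²+q+1) = δ`. For `e = (1, 0)`, `f = (0, 1)` this is `D_δ`. -/
def andreSet {K : Type*} [Field K] (q : ℕ) (e f : K × K) (δ : K) : Set (ℙ K (K × K)) :=
  {P | ∃ θ : K, θ ^ (q ^ 2 + q + 1) = δ ∧ P.submodule = K ∙ (e + θ • f)}

/-- The affine lines of the André plane `𝒫(D^m)`: the lines `v + [P]` with `P ∉ D`, and the sets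
`v + X_{m,u}` with `u^(q²+q+1) = δ`, where `X_{m,u} = {s e + s^(q^m) u f : s ∈ K}`. -/
def andreLines {K : Type*} [Field K] (q m : ℕ) (e f : K × K) (δ : K) : Set (Set (K × K)) :=
  {l | ∃ (v : K × K) (P : ℙ K (K × K)), P ∉ andreSet q e f δ ∧ l = {p | p - v ∈ P.submodule}} ∪
  {l | ∃ (v : K × K) (u : K), u ^ (q ^ 2 + q + 1) = δ ∧
    l = {p | ∃ s : K, p = v + (s • e + (s ^ q ^ m * u) • f)}}

/-- `S` is an arc with respect to the lines `L`: no line contains three points of `S`. -/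
def IsArc {V : Type*} (L : Set (Set V)) (S : Set V) : Prop :=
  ∀ l ∈ L, ∀ a ∈ S ∩ l, ∀ b ∈ S ∩ l, ∀ c ∈ S ∩ l, a = b ∨ a = c ∨ b = c

lemma cramer {K : Type*} [Field K] (e f t : K × K) (hd : e.1 * f.2 - e.2 * f.1 ≠ 0) :
    t = ((t.1 * f.2 - t.2 * f.1) / (e.1 * f.2 - e.2 * f.1)) • e +
      ((e.1 * t.2 - e.2 * t.1) / (e.1 * f.2 - e.2 * f.1)) • f := by
  ext
  · simp only [Prod.fst_add, Prod.smul_fst, smul_eq_mul]
    rw [div_mul_eq_mul_div, div_mul_eq_mul_div, ← add_div, eq_div_iff hd]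
    ring
  · simp only [Prod.snd_add, Prod.smul_snd, smul_eq_mul]
    rw [div_mul_eq_mul_div, div_mul_eq_mul_div, ← add_div, eq_div_iff hd]
    ring

/-- linearly dependent representatives give the same point -/
lemma eq_of_det {K : Type*} [Field K] (P R : ℙ K (K × K)) (e f : K × K)
    (he : P.submodule = K ∙ e) (hf : R.submodule = K ∙ f)
    (hd : e.1 * f.2 - e.2 * f.1 = 0) : P = R := by
  have hne : ∀ (P : ℙ K (K × K)) (e : K × K), P.submodule = K ∙ e → e ≠ 0 := by
    intro P e he h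
    rw [h, Submodule.span_zero_singleton, Projectivization.submodule_eq] at he
    exact P.rep_nonzero (Submodule.span_singleton_eq_bot.mp he)
  have he0 := hne P e he
  have hf0 := hne R f hf
  apply Projectivization.submodule_injective
  rw [he, hf]
  by_cases h1 : e.1 = 0
  · have h2 : e.2 ≠ 0 := fun h2 => he0 (Prod.ext h1 h2)
    have hf1 : f.1 = 0 := by
      rw [h1, zero_mul, zero_sub, neg_eq_zero] at hd
      exact (mul_eq_zero.mp hd).resolve_left h2
    have hf2 : f.2 ≠ 0 := fun h2 => hf0 (Prod.ext hf1 h2)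
    have : e = (e.2 / f.2) • f := by
      ext
      · simp [h1, hf1]
      · simp [hf2]
    rw [this]
    exact Submodule.span_singleton_smul_eq (IsUnit.mk0 _ (div_ne_zero h2 hf2)) f
  · have hf1 : f.1 ≠ 0 := by
      intro hf1
      rw [hf1, mul_zero, sub_zero] at hd
      have := (mul_eq_zero.mp hd).resolve_left h1
      exact hf0 (Prod.ext hf1 this)
    have : e = (e.1 / f.1) • f := by
      ext
      · simp [hf1]
      · simp only [Prod.smul_snd, smul_eq_mul]
        field_simp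
        linear_combination -hd
    rw [this]
    exact Submodule.span_singleton_smul_eq (IsUnit.mk0 _ (div_ne_zero h1 hf1)) f

/-- **Q1 of MP_bbeacd_co.** Let `q > 2` be a power of two, `K` the field with `q³` elements, `C` a
nondegenerate conic of `PG(2, K)` tangent to the line at infinity at `T`, with nucleus `N`, and let
`D` be an André set with transversal points `E`, `F`. If `|{T, N} ∩ {E, F}| < 2` then for `m = 1, 2`
the affine points of `C` do not form an arc of the André plane `𝒫(D^m)`. -/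
theorem result {K : Type*} [Field K] [Fintype K] (q : ℕ) (hq : ∃ h : ℕ, q = 2 ^ h) (hq2 : 2 < q)
    (hK : Fintype.card K = q ^ 3)
    (Q : QuadraticForm K (Fin 3 → K)) (T N : ℙ K (K × K))
    (hQ : Nondegenerate Q) (hT : TangentAtInfinity Q T) (hN : IsNucleus Q N)
    (E F : ℙ K (K × K)) (hEF : E ≠ F) (e f : K × K)
    (he : E.submodule = K ∙ e) (hf : F.submodule = K ∙ f)
    (δ : K) (hδ0 : δ ≠ 0) (hδ : δ ^ q = δ)
    (hTN : (({T, N} : Set (ℙ K (K × K))) ∩ {E, F}).ncard < 2)
    (m : ℕ) (hm : m = 1 ∨ m = 2) :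
    ¬ IsArc (andreLines q m e f δ) (affinePoints Q) := by
  obtain ⟨h, hqh⟩ := hq
  have hh : 1 < h := by
    by_contra hcon
    have : h ≤ 1 := by omega
    have h2 : q ≤ 2 ^ 1 := by
      rw [hqh]
      exact Nat.pow_le_pow_right (by norm_num) this
    omega
  have : Fact (Nat.Prime 2) := ⟨Nat.prime_two⟩
  have : CharP K 2 := charP_of_card_eq_prime_pow (f := h * 3) (by rw [hK, hqh, ← pow_mul])
  -- the nucleus
  obtain ⟨R, hR, hQR⟩ := exists_radical Q hQ
  have hNmem : inf N ∈ (K ∙ R) := by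
    by_contra hcon
    obtain ⟨φ, hφ1, hφ2⟩ := Submodule.exists_le_ker_of_notMem hcon
    have hφR : φ R = 0 := hφ2 (Submodule.mem_span_singleton_self R)
    have hφ0 : φ ≠ 0 := by
      rintro rfl
      exact hφ1 rfl
    exact hφ1 (hN φ hφ0 (tangent_of_radical Q R hR hQR φ hφ0 hφR))
  rw [Submodule.mem_span_singleton] at hNmem
  obtain ⟨c, hc⟩ := hNmem
  have hc0 : c ≠ 0 := by
    rintro rfl
    rw [zero_smul] at hc
    apply N.rep_nonzero
    have h1 := congrFun hc 0
    have h2 := congrFun hc 1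
    simp only [inf, Pi.zero_apply, Matrix.cons_val_zero, Matrix.cons_val_one] at h1 h2
    exact Prod.ext h1.symm h2.symm
  have hNrad : ∀ w, QuadraticMap.polar Q (inf N) w = 0 := by
    intro w
    rw [← hc, QuadraticMap.polar_smul_left, hR, smul_zero]
  have hQN : Q (inf N) ≠ 0 := by
    rw [← hc, QuadraticMap.map_smul, smul_eq_mul]
    exact mul_ne_zero (mul_ne_zero hc0 hc0) hQR
  have hQT : Q (inf T) = 0 := (hT T).mpr rfl
  have hTNne : T ≠ N := by
    rintro rfl
    exact hQN hQT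
  -- coordinates
  have hd : e.1 * f.2 - e.2 * f.1 ≠ 0 := fun h0 => hEF (eq_of_det E F e f he hf h0)
  have hTs : T.submodule = K ∙ T.rep := T.submodule_eq
  have hNs : N.submodule = K ∙ N.rep := N.submodule_eq
  have hdTN : T.rep.1 * N.rep.2 - T.rep.2 * N.rep.1 ≠ 0 := fun h0 =>
    hTNne (eq_of_det T N _ _ hTs hNs h0)
  have hdTN' : T.rep.1 * N.rep.2 + T.rep.2 * N.rep.1 ≠ 0 := by
    rwa [CharTwo.sub_eq_add] at hdTN
  obtain ⟨p, κ, hκ, hp⟩ := conic_param Q hQ T.rep N.rep T.rep_nonzero hQT hNrad hQN hdTN'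
  have hTc := cramer e f T.rep hd
  have hNc := cramer e f N.rep hd
  obtain ⟨T1, hT1⟩ : ∃ x, x = (T.rep.1 * f.2 - T.rep.2 * f.1) / (e.1 * f.2 - e.2 * f.1) := ⟨_, rfl⟩
  obtain ⟨T2, hT2⟩ : ∃ x, x = (e.1 * T.rep.2 - e.2 * T.rep.1) / (e.1 * f.2 - e.2 * f.1) := ⟨_, rfl⟩
  obtain ⟨N1, hN1⟩ : ∃ x, x = (N.rep.1 * f.2 - N.rep.2 * f.1) / (e.1 * f.2 - e.2 * f.1) := ⟨_, rfl⟩
  obtain ⟨N2, hN2⟩ : ∃ x, x = (e.1 * N.rep.2 - e.2 * N.rep.1) / (e.1 * f.2 - e.2 * f.1) := ⟨_, rfl⟩
  rw [← hT1, ← hT2] at hTc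
  rw [← hN1, ← hN2] at hNc
  have hEFcard : ({E, F} : Set (ℙ K (K × K))).ncard = 2 := Set.ncard_pair hEF
  have hTE : ∀ P : ℙ K (K × K), ∀ a b : K, P.rep = a • e + b • f → b = 0 → P = E := by
    intro P a b hab hb
    apply eq_of_det P E _ _ P.submodule_eq he
    rw [hab, hb]
    simp only [zero_smul, add_zero, Prod.smul_fst, Prod.smul_snd, smul_eq_mul]
    ring
  have hTF : ∀ P : ℙ K (K × K), ∀ a b : K, P.rep = a • e + b • f → a = 0 → P = F := by
    intro P a b hab ha
    apply eq_of_det P F _ _ P.submodule_eq hf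
    rw [hab, ha]
    simp only [zero_smul, zero_add, Prod.smul_fst, Prod.smul_snd, smul_eq_mul]
    ring
  have hΔ : (κ * T1) * N2 + (κ * T2) * N1 ≠ 0 := by
    intro h0
    apply hdTN'
    have h1 : κ * (T1 * N2 + T2 * N1) = 0 := by linear_combination h0
    have h2 : T1 * N2 + T2 * N1 = 0 := (mul_eq_zero.mp h1).resolve_left hκ
    rw [hTc, hNc]
    simp only [Prod.fst_add, Prod.snd_add, Prod.smul_fst, Prod.smul_snd, smul_eq_mul]
    have d1 := CharTwo.add_self_eq_zero (T1 * e.1 * N1 * e.2)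
    have d2 := CharTwo.add_self_eq_zero (T2 * f.1 * N2 * f.2)
    have hE1 : T1 * N2 = T2 * N1 := CharTwo.add_eq_zero.mp h2
    have d3 := CharTwo.add_self_eq_zero (T2 * N1 * (e.1 * f.2))
    have d4 := CharTwo.add_self_eq_zero (T2 * N1 * (e.2 * f.1))
    linear_combination d1 + d2 + d3 + d4 + (e.1 * f.2 + e.2 * f.1) * hE1
  obtain ⟨u, s, s', hu, hX, hX', hY, hY', hne⟩ :=
    three_points hh hqh hK m hm (κ * T1) (κ * T2) N1 N2 δ hδ0 hδ hΔ
      (by
        rintro ⟨h1, h2⟩
        have hN' : N = E := hTE N N1 N2 hNc h1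
        have hT' : T = F := hTF T T1 T2 hTc ((mul_eq_zero.mp h2).resolve_left hκ)
        rw [hN', hT', Set.pair_comm, Set.inter_self, hEFcard] at hTN
        omega)
      (by
        rintro ⟨h1, h2⟩
        have hN' : N = F := hTF N N1 N2 hNc h1
        have hT' : T = E := hTE T T1 T2 hTc ((mul_eq_zero.mp h2).resolve_left hκ)
        rw [hN', hT', Set.inter_self, hEFcard] at hTN
        omega)
  intro harc
  -- the points of the conic in coordinates
  have hpt : ∀ r : K, p + ((r ^ 2 * (κ * T1) + r * N1) • e + (r ^ 2 * (κ * T2) + r * N2) • f) ∈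
      affinePoints Q := by
    intro r
    have h1 := hp r
    have h2 : (r ^ 2 * κ) • T.rep + r • N.rep =
        (r ^ 2 * (κ * T1) + r * N1) • e + (r ^ 2 * (κ * T2) + r * N2) • f := by
      rw [hTc, hNc]
      simp only [smul_add, smul_smul, add_smul]
      rw [show r ^ 2 * κ * T1 = r ^ 2 * (κ * T1) by ring,
        show r ^ 2 * κ * T2 = r ^ 2 * (κ * T2) by ring]
      abel
    rw [h2] at h1
    exact h1
  have hline : {x : K × K | ∃ s : K, x = p + (s • e + (s ^ q ^ m * u) • f)} ∈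
      andreLines q m e f δ := Or.inr ⟨p, u, hu, rfl⟩
  have hqm : q ^ m ≠ 0 := pow_ne_zero _ (by omega)
  have hinj : ∀ a b a' b' : K, p + (a • e + b • f) = p + (a' • e + b' • f) → a = a' ∧ b = b' := by
    intro a b a' b' h0
    have h1 : a • e + b • f = a' • e + b' • f := add_left_cancel h0
    have h2 := congrArg Prod.fst h1
    have h3 := congrArg Prod.snd h1
    simp only [Prod.fst_add, Prod.snd_add, Prod.smul_fst, Prod.smul_snd, smul_eq_mul] at h2 h3
    constructor
    · apply sub_eq_zero.mp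
      have : (a - a') * (e.1 * f.2 - e.2 * f.1) = 0 := by linear_combination f.2 * h2 - f.1 * h3
      exact (mul_eq_zero.mp this).resolve_right hd
    · apply sub_eq_zero.mp
      have : (b - b') * (e.1 * f.2 - e.2 * f.1) = 0 := by
        linear_combination e.1 * h3 - e.2 * h2
      exact (mul_eq_zero.mp this).resolve_right hd
  have h0mem : p + ((0 : K) • e + (0 : K) • f) ∈ affinePoints Q := by
    have := hpt 0
    simpa using this
  rcases harc _ hline (p + ((0 : K) • e + (0 : K) • f))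
    ⟨h0mem, ⟨0, by rw [zero_pow hqm, zero_mul]⟩⟩
    _ ⟨hpt s, ⟨_, by rw [hY]⟩⟩ _ ⟨hpt s', ⟨_, by rw [hY']⟩⟩ with h1 | h1 | h1
  · exact hX (hinj _ _ _ _ h1).1.symm
  · exact hX' (hinj _ _ _ _ h1).1.symm
  · exact hne (hinj _ _ _ _ h1)

end Pool.Agent.Results.MP_bbeacd_co.Full
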